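import Pool.Agent.SC.P1
import Pool.Agent.Helper17.FF.Basic

/-!
# The affine line is simply connected (characteristic zero)

A finite extension of `k(u)`, `k` algebraically closed of characteristic zero, which is unramified
at all finite places is equal to `k(u)`.
-/

namespace SC

open VC SCVP Polynomial IntermediateField

universe u

variable {k F : Type u} [Field k] [IsAlgClosed k] [CharZero k] [Field F] [Algebra k F]

/-- The derivation `u d/du` is regular at the poles of `u`. -/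
theorem mul_deriv_mem (hF : IsFunctionField k F) (Q : Place k F) (d : Derivation ℤ F F)
    (hk : ∀ a : k, d (algebraMap k F a) = 0) {u : F} (hu0 : u ≠ 0) (hdu : d u = 1)
    (hQ : u ∉ Q.ring) : ∀ f ∈ Q.ring, u * d f ∈ Q.ring := by
  have hcF : CharZero F := charZero_of_injective_algebraMap (algebraMap k F).injective
  obtain ⟨π, hπ0, hπ⟩ := FF.exists_ord_eq hF Q 1
  have hD : ∀ x : F, (u • d) x = u * d x := fun x => by
    rw [Derivation.smul_apply, smul_eq_mul]
  by_cases hDπ : u * d π ∈ Q.ring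
  · intro f hf
    rw [← hD]
    exact deriv_mem hF Q (u • d) (fun a => by rw [hD, hk, mul_zero]; exact Q.ring.zero_mem) hπ0 hπ
      (by rw [hD]; exact hDπ) f hf
  exfalso
  have hne : u * d π ≠ 0 := by
    intro h0
    exact hDπ (by rw [h0]; exact Q.ring.zero_mem)
  have hneg : ord Q.ring (u * d π) < 0 := by
    by_contra h1
    exact hDπ ((ord_nonneg_iff hF Q hne).1 (not_lt.1 h1))
  obtain ⟨r, hr⟩ : ∃ r : ℕ, ord Q.ring (u * d π) = -(r + 1 : ℕ) :=
    ⟨(-ord Q.ring (u * d π) - 1).toNat, by push_cast; omega⟩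
  let D' : Derivation ℤ F F := (π ^ (r + 1) * u) • d
  have hD' : ∀ x : F, D' x = π ^ (r + 1) * (u * d x) := fun x => by
    change ((π ^ (r + 1) * u) • d) x = _
    rw [Derivation.smul_apply, smul_eq_mul, mul_assoc]
  have hπr : π ^ (r + 1) ≠ 0 := pow_ne_zero _ hπ0
  have hordD : ord Q.ring (D' π) = 0 := by
    rw [hD', ord_mul hF Q hπr hne, ord_pow hF Q hπ0, hπ, hr]
    push_cast
    ring
  have hD'π0 : D' π ≠ 0 := by
    rw [hD']
    exact mul_ne_zero hπr hne
  have hreg : ∀ f ∈ Q.ring, D' f ∈ Q.ring :=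
    deriv_mem hF Q D' (fun a => by rw [hD', hk, mul_zero, mul_zero]; exact Q.ring.zero_mem) hπ0 hπ
      ((ord_nonneg_iff hF Q hD'π0).1 (by rw [hordD]))
  have huinv0 : u⁻¹ ≠ 0 := inv_ne_zero hu0
  have hpos : 0 < ord Q.ring u⁻¹ := by
    have h1 : ¬ 0 ≤ ord Q.ring u := fun h1 => hQ ((ord_nonneg_iff hF Q hu0).1 h1)
    rw [ord_inv hF Q hu0]
    omega
  obtain ⟨e, he⟩ : ∃ e : ℕ, ord Q.ring u⁻¹ = (e + 1 : ℕ) :=
    ⟨(ord Q.ring u⁻¹ - 1).toNat, by push_cast; omega⟩
  have hπe : π ^ (e + 1) ≠ 0 := pow_ne_zero _ hπ0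
  set ε : F := u⁻¹ / π ^ (e + 1) with hε
  have hε0 : ε ≠ 0 := div_ne_zero huinv0 hπe
  have hu' : u⁻¹ = ε * π ^ (e + 1) := by rw [hε, div_mul_cancel₀ _ hπe]
  have hordε : ord Q.ring ε = 0 := by
    have h1 := ord_mul hF Q hε0 hπe
    rw [← hu', he, ord_pow hF Q hπ0, hπ] at h1
    push_cast at h1
    omega
  have hεQ : ε ∈ Q.ring := (ord_nonneg_iff hF Q hε0).1 (by rw [hordε])
  have hdinv : d u⁻¹ = - (u⁻¹) ^ 2 := by
    rw [Derivation.leibniz_inv, hdu]
    simp
  have h1 : D' u⁻¹ = -(π ^ (r + 1) * (ε * π ^ (e + 1))) := by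
    rw [hD', hdinv, ← hu']
    field_simp
  have h2 : D' u⁻¹ = ε * ((e + 1 : ℕ) * π ^ e * D' π) + π ^ (e + 1) * D' ε := by
    rw [hu', Derivation.leibniz, Derivation.leibniz_pow]
    simp only [smul_eq_mul, nsmul_eq_mul, Nat.add_sub_cancel]
    ring
  have h3 : ε * (((e + 1 : ℕ) : F) * (D' π * π⁻¹)) = -(π ^ (r + 1) * ε) - D' ε := by
    have h4 := h2.symm.trans h1
    have h5 : π ^ (e + 1) * (ε * (((e + 1 : ℕ) : F) * (D' π * π⁻¹))) =
        π ^ (e + 1) * (-(π ^ (r + 1) * ε) - D' ε) := by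
      have h6 : π ^ (e + 1) * (ε * (((e + 1 : ℕ) : F) * (D' π * π⁻¹))) =
          ε * ((e + 1 : ℕ) * π ^ e * D' π) * (π * π⁻¹) := by
        rw [pow_succ]; ring
      rw [h6, mul_inv_cancel₀ hπ0, mul_one]
      linear_combination h4
    exact mul_left_cancel₀ hπe h5
  have hmem : ε * (((e + 1 : ℕ) : F) * (D' π * π⁻¹)) ∈ Q.ring := by
    rw [h3]
    have hπQ : π ∈ Q.ring := (ord_nonneg_iff hF Q hπ0).1 (by rw [hπ]; norm_num)
    exact sub_mem (Q.ring.neg_mem _ (Q.ring.mul_mem _ _ (pow_mem hπQ _) hεQ)) (hreg ε hεQ)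
  have he0 : ((e + 1 : ℕ) : F) ≠ 0 := Nat.cast_ne_zero.2 (Nat.succ_ne_zero e)
  have hx0 : ε * (((e + 1 : ℕ) : F) * (D' π * π⁻¹)) ≠ 0 :=
    mul_ne_zero hε0 (mul_ne_zero he0 (mul_ne_zero hD'π0 (inv_ne_zero hπ0)))
  have hord : ord Q.ring (ε * (((e + 1 : ℕ) : F) * (D' π * π⁻¹))) = -1 := by
    have h7 : ord Q.ring ((e + 1 : ℕ) : F) = 0 := by
      have h8 := ord_algebraMap hF Q (a := ((e + 1 : ℕ) : k))
        (Nat.cast_ne_zero.2 (Nat.succ_ne_zero e))
      rwa [map_natCast] at h8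
    rw [ord_mul hF Q hε0 (mul_ne_zero he0 (mul_ne_zero hD'π0 (inv_ne_zero hπ0))),
      ord_mul hF Q he0 (mul_ne_zero hD'π0 (inv_ne_zero hπ0)),
      ord_mul hF Q hD'π0 (inv_ne_zero hπ0), ord_inv hF Q hπ0, hordε, h7, hordD, hπ]
    norm_num
  have h9 := (ord_nonneg_iff hF Q hx0).2 hmem
  rw [hord] at h9
  omega

/-- **The affine line is simply connected.** If the function field `F` over `k` is unramified
over `k(u)` at all finite places, then `F = k(u)`. -/
theorem adjoin_eq_top_of_unramified_fin (hF : IsFunctionField k F) {u : F}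
    (hu : Transcendental k u)
    (h : ∀ Q : Place k F, u ∈ Q.ring → ∃ c : k, ord Q.ring (u - algebraMap k F c) = 1) :
    k⟮u⟯ = ⊤ := by
  obtain ⟨d, hdk0, hdu⟩ := exists_deriv hF hu 0 1
  have hdk : ∀ a : k, d (algebraMap k F a) = 0 := by
    intro a; rw [hdk0]; simp
  have hdu1 : d u = 1 := by rw [hdu]; simp
  have hu0 : u ≠ 0 := by
    rintro rfl
    exact hu isAlgebraic_zero
  have hsub0 : ∀ c : k, u - algebraMap k F c ≠ 0 := by
    intro c hc
    apply hu
    rw [sub_eq_zero.mp hc]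
    exact isAlgebraic_algebraMap c
  -- finite places
  have hfinpl : ∀ Q : Place k F, (∃ c : k, ord Q.ring (u - algebraMap k F c) = 1) →
      ∀ f ∈ Q.ring, d f ∈ Q.ring := by
    rintro Q ⟨c, hc⟩
    refine deriv_mem hF Q d (fun a => by rw [hdk]; exact Q.ring.zero_mem) (hsub0 c) hc ?_
    rw [map_sub, hdu1, hdk, sub_zero]
    exact Q.ring.one_mem
  -- infinite places
  have hdinv : d u⁻¹ = - (u⁻¹) ^ 2 := by
    rw [Derivation.leibniz_inv, hdu1]
    simp
  have hinf : ∀ Q : Place k F, u ∉ Q.ring → ∀ f ∈ Q.ring, u * d f ∈ Q.ring := fun Q hQ =>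
    mul_deriv_mem hF Q d hdk hu0 hdu1 hQ
  have huinv : ∀ Q : Place k F, u ∉ Q.ring → u⁻¹ ∈ Q.ring := by
    intro Q hQ
    exact (Q.ring.mem_or_inv_mem u).resolve_left hQ
  -- the main induction
  have key : ∀ (n : ℕ) (f : F),
      (∀ Q : Place k F, (∃ c : k, ord Q.ring (u - algebraMap k F c) = 1) → f ∈ Q.ring) →
      (∀ Q : Place k F, u ∉ Q.ring → (u⁻¹) ^ n * f ∈ Q.ring) →
      ∃ p : k[X], aeval u p = f := by
    intro n
    induction n with
    | zero =>
      intro f h1 h2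
      obtain ⟨c, hc⟩ := exists_const_of_forall_mem hF (f := f) (fun Q => by
        by_cases h3 : u ∈ Q.ring
        · exact h1 Q (h Q h3)
        · have := h2 Q h3
          rwa [pow_zero, one_mul] at this)
      exact ⟨C c, by rw [aeval_C, hc]⟩
    | succ n ih =>
      intro f h1 h2
      obtain ⟨p, hp⟩ := ih (d f) (fun Q hQ => hfinpl Q hQ f (h1 Q hQ)) (by
        intro Q hQ
        have h3 := hinf Q hQ _ (h2 Q hQ)
        have h4 : d ((u⁻¹) ^ (n + 1) * f) = (u⁻¹) ^ (n + 1) * d f -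
            (n + 1) * (u⁻¹) ^ (n + 2) * f := by
          rw [Derivation.leibniz, Derivation.leibniz_pow, hdinv]
          simp only [smul_eq_mul, nsmul_eq_mul, Nat.add_sub_cancel]
          push_cast
          ring
        have h5 : (u⁻¹) ^ n * d f = u * d ((u⁻¹) ^ (n + 1) * f) +
            ((n + 1 : ℕ) : F) * ((u⁻¹) ^ (n + 1) * f) := by
          rw [h4]
          have e1 : (u⁻¹) ^ (n + 1) = u⁻¹ * (u⁻¹) ^ n := pow_succ' _ _
          have e2 : (u⁻¹) ^ (n + 2) = u⁻¹ * (u⁻¹ * (u⁻¹) ^ n) := by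
            rw [pow_succ', pow_succ']
          have e3 : u⁻¹ * u = 1 := inv_mul_cancel₀ hu0
          rw [e1, e2]
          push_cast
          have e4 : u * (u⁻¹ * (u⁻¹) ^ n * d f - (n + 1) * (u⁻¹ * (u⁻¹ * (u⁻¹) ^ n)) * f)
              = (u⁻¹ * u) * ((u⁻¹) ^ n * d f) -
              (u⁻¹ * u) * ((n + 1) * (u⁻¹ * (u⁻¹) ^ n) * f) := by ring
          rw [e4, e3]
          ring
        rw [h5]
        refine Q.ring.add_mem _ _ h3
          (Q.ring.mul_mem _ _ ?_ (h2 Q hQ))
        exact natCast_mem Q.ring _)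
      obtain ⟨q, hq⟩ := exists_primitive p
      have h6 : d (f - aeval u q) = 0 := by
        rw [map_sub, ← hp, ← hq, sub_eq_zero]
        have h7 : ∀ r : k[X], d (aeval u r) = aeval u (derivative r) := by
          intro r
          induction r using Polynomial.induction_on with
          | C a => rw [aeval_C, hdk, derivative_C, map_zero]
          | add p q hp hq => rw [map_add, map_add, hp, hq, derivative_add, map_add]
          | monomial n a ih =>
            rw [pow_succ, ← mul_assoc, map_mul, aeval_X, Derivation.leibniz, hdu1, ih,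
              derivative_mul (f := C a * X ^ n) (g := X), derivative_X, mul_one, map_add,
              map_mul (aeval u) (derivative (C a * X ^ n)) X, aeval_X, smul_eq_mul, smul_eq_mul,
              mul_one]
            ring
        exact (h7 q).symm
      obtain ⟨c, hc⟩ := exists_const_of_deriv_eq_zero hF d hdk (u := u) (by rw [hdu1]; exact
        one_ne_zero) h6
      refine ⟨q + C c, ?_⟩
      rw [map_add, aeval_C, hc]
      ring
  -- conclusion
  rw [eq_top_iff]
  intro f _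
  have hfin := hF.finiteDimensional hu
  -- a denominator making `f` integral
  let i1 : Algebra k[X] F := polyAlg u
  let i3 : Algebra (RatFunc k) F := ratAlg u hu
  have s3 : IsScalarTower k[X] (RatFunc k) F := IsScalarTower.of_algebraMap_eq (fun x =>
    (ratAlg_poly u hu x).symm)
  have f1 : FiniteDimensional (RatFunc k) F := finiteDimensional_ratAlg u hu hfin
  have halg : IsAlgebraic k[X] f :=
    (IsFractionRing.isAlgebraic_iff k[X] (RatFunc k) F).mpr (Algebra.IsAlgebraic.isAlgebraic f)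
  obtain ⟨s, hs0, hs⟩ := halg.exists_integral_multiple
  have hX : ∀ p : k[X], algebraMap k[X] F p = aeval u p := fun p => rfl
  rw [Algebra.smul_def, hX] at hs
  have hsne : aeval u s ≠ 0 := by
    intro h0
    exact hs0 ((transcendental_iff.mp hu) s h0)
  set g := aeval u s * f with hg
  -- bound at infinity
  have hinfset : {P : Place k F | u⁻¹ ∈ P.ring.nonunits}.Finite :=
    finite_zeros hF (transcendental_inv hu)
  obtain ⟨n, hn⟩ : ∃ n : ℕ, ∀ Q : Place k F, u ∉ Q.ring → (u⁻¹) ^ n * g ∈ Q.ring := by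
    have hnon : ∀ Q : Place k F, u ∉ Q.ring → u⁻¹ ∈ Q.ring.nonunits := by
      intro Q hQ
      rw [ValuationSubring.inv_mem_nonunits_iff]
      exact Or.inr hQ
    have hex : ∀ Q : Place k F, ∃ n : ℕ, u⁻¹ ∈ Q.ring.nonunits → ∀ m, n ≤ m →
        (u⁻¹) ^ m * g ∈ Q.ring := by
      intro Q
      by_cases hQ : u⁻¹ ∈ Q.ring.nonunits
      · obtain ⟨n, hn⟩ := exists_pow_mul_mem hF Q (inv_ne_zero hu0) hQ g
        exact ⟨n, fun _ => hn⟩
      · exact ⟨0, fun h => absurd h hQ⟩
    choose N hN using hex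
    refine ⟨hinfset.toFinset.sup N, fun Q hQ => hN Q (hnon Q hQ) _ ?_⟩
    exact Finset.le_sup (f := N) (hinfset.mem_toFinset.mpr (hnon Q hQ))
  obtain ⟨p, hp⟩ := key n g (by
    rintro Q ⟨c, hc⟩
    have huQ : u ∈ Q.ring := by
      have h1 : u - algebraMap k F c ∈ Q.ring := by
        rw [← ord_nonneg_iff hF Q (hsub0 c), hc]; norm_num
      have h2 := Q.ring.add_mem _ _ h1 (Q.algebraMap_mem c)
      rwa [sub_add_cancel] at h2
    obtain ⟨P, hPm, hP0⟩ := hs
    exact mem_of_isIntegral Q huQ hPm hP0) hn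
  have hfe : f = aeval u p / aeval u s := by
    rw [hp, hg, mul_div_cancel_left₀ _ hsne]
  rw [hfe]
  have hmem : ∀ q : k[X], aeval u q ∈ k⟮u⟯ := by
    intro q
    have h1 : aeval u q ∈ Algebra.adjoin k {u} := aeval_mem_adjoin_singleton k u
    exact IntermediateField.algebra_adjoin_le_adjoin k {u} h1
  exact div_mem (hmem p) (hmem s)


end SC
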