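import Pool.Agent.Helper37.TWH.Defs
import Pool.Agent.Helper13.TWH.B0
import Pool.Agent.Helper13.OPN.C
import Pool.Agent.SC.Ext

/-!
# TWH, block B: `F(v)` is algebraically closed in `k`
-/

universe u

namespace Pool.Agent.TWH

open VC Polynomial Pool.Agent.LT Pool.Agent.SC Pool.Agent.GC Pool.Agent

/-- An element `z` algebraic over `E(v)` which is fixed by the inertia groups over `E(v, u)` at the
Gauss extensions of the finite places `v = c` is in `E(v)`. -/
theorem mem_of_unramified {E C : Type u} [Field E] [CharZero E] [IsAlgClosed E] [Field C]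
    [IsAlgClosed C] [Algebra E C] {v u z : C} (hvu : AlgebraicIndependent E ![v, u])
    (halg : Algebra.IsAlgebraic (k0 E v u) C)
    (hz : IsAlgebraic (IntermediateField.adjoin E {v}) z)
    (h : ∀ (W : ValuationSubring C) (c : E), (∀ x ∈ IntermediateField.adjoin E {u}, x ∈ W) →
      v - algebraMap E C c ∈ W.nonunits → ∀ τ : C →+* C,
      (∀ e : E, τ (algebraMap E C e) = algebraMap E C e) → τ v = v → τ u = u →
      (∀ x ∈ W, τ x - x ∈ W.nonunits) → τ z = z) :
    z ∈ IntermediateField.adjoin E {v} := by
  classical
  have hC0 : CharZero C := charZero_of_injective_algebraMap (algebraMap E C).injective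
  have htv : Transcendental E v := transc_F_t hvu
  let M : IntermediateField E C := IntermediateField.adjoin E {v, z}
  have hvM : v ∈ M := IntermediateField.subset_adjoin _ _ (Or.inl rfl)
  have hzM : z ∈ M := IntermediateField.subset_adjoin _ _ (Or.inr rfl)
  let t : M := ⟨v, hvM⟩
  let z' : M := ⟨z, hzM⟩
  -- `u` is transcendental over `M`
  have huK : Transcendental (IntermediateField.adjoin E {v}).toSubfield u :=
    transc_t (algInd_symm hvu)
  have hMK : M.toSubfield ≤ OPN.acl (IntermediateField.adjoin E {v}).toSubfield := by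
    rw [IntermediateField.adjoin_toSubfield, Subfield.closure_le]
    rintro x (⟨e, rfl⟩ | rfl | hx)
    · exact OPN.le_acl ((IntermediateField.adjoin E {v}).algebraMap_mem e)
    · exact OPN.le_acl (IntermediateField.mem_adjoin_simple_self E _)
    · rw [Set.mem_singleton_iff.1 hx]
      exact OPN.mem_acl.2 hz
  have huM : Transcendental M u := OPN.tr_mono hMK (OPN.tr_acl huK)
  -- the function field
  have htr : Transcendental E t := by
    intro h1
    exact htv (h1.algebraMap (A := C))
  have hz't : IsAlgebraic (IntermediateField.adjoin E {t}) z' := by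
    rw [← isAlgebraic_algebraMap_iff (algebraMap M C).injective]
    refine isAlgebraic_of_range_le (fun a => ?_) hz
    have h1 : (IntermediateField.adjoin E {t}).map M.val = IntermediateField.adjoin E {v} := by
      rw [IntermediateField.adjoin_map, Set.image_singleton]
      rfl
    have h2 : (a : C) ∈ (IntermediateField.adjoin E {t}).map M.val := by
      rw [h1]; exact a.2
    obtain ⟨b, hb, hba⟩ := h2
    exact ⟨⟨b, hb⟩, hba⟩
  have htop : IntermediateField.adjoin (IntermediateField.adjoin E {t}) {z'} = ⊤ := by
    have h1 : (IntermediateField.adjoin E {t, z'}).map M.val = M := by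
      rw [IntermediateField.adjoin_map, Set.image_pair]
      rfl
    rw [eq_top_iff]
    intro x _
    have h2 : (x : C) ∈ (IntermediateField.adjoin E {t, z'}).map M.val := by
      rw [h1]; exact x.2
    obtain ⟨w, hw, hwx⟩ := h2
    have h3 : w = x := Subtype.ext hwx
    rw [h3] at hw
    have h4 : (IntermediateField.adjoin (IntermediateField.adjoin E {t}) {z'}).restrictScalars E =
        IntermediateField.adjoin E {t, z'} := by
      rw [IntermediateField.adjoin_adjoin_left]
      rfl
    have h5 : x ∈ (IntermediateField.adjoin (IntermediateField.adjoin E {t}) {z'}).restrictScalars E := by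
      rw [h4]; exact hw
    exact h5
  have hfinM : FiniteDimensional (IntermediateField.adjoin E {t}) M := by
    have h1 : FiniteDimensional (IntermediateField.adjoin E {t})
        (IntermediateField.adjoin (IntermediateField.adjoin E {t}) {z'}) :=
      IntermediateField.adjoin.finiteDimensional hz't.isIntegral
    rw [htop] at h1
    exact (IntermediateField.topEquiv (F := IntermediateField.adjoin E {t})
      (E := M)).toLinearEquiv.finiteDimensional
  have hFF : IsFunctionField E M := ⟨t, htr, hfinM⟩
  -- unramified
  have hmain : IntermediateField.adjoin E {t} = ⊤ := by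
    refine _root_.SC.adjoin_eq_top_of_unramified_fin hFF htr fun Q hQ => ?_
    obtain ⟨c, hc⟩ := SCVP.exists_residue hFF Q hQ
    refine ⟨c, ?_⟩
    let A : IntermediateField E C := IntermediateField.adjoin E {u}
    let x : PUnit.{u+1} → A := fun _ => ⟨u, IntermediateField.mem_adjoin_simple_self E u⟩
    obtain ⟨V, hV1, hV2⟩ := exists_ext_val (E := E) (A := A) (U := M) (L := C) x (by
      rw [algebraicIndependent_unique_type_iff]
      exact huM) (by
      have h1 : IntermediateField.adjoin E (Set.range x) = ⊤ := by
        rw [Set.range_const]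
        have h2 : (IntermediateField.adjoin E {x PUnit.unit}).map A.val = A := by
          rw [IntermediateField.adjoin_map, Set.image_singleton]
          rfl
        rw [eq_top_iff]
        intro y _
        have h3 : (y : C) ∈ (IntermediateField.adjoin E {x PUnit.unit}).map A.val := by
          rw [h2]; exact y.2
        obtain ⟨w, hw, hwy⟩ := h3
        have h4 : w = y := Subtype.ext hwy
        rw [← h4]
        exact hw
      rw [h1]
      exact ⟨fun y => isAlgebraic_algebraMap (⟨y, trivial⟩ : (⊤ : IntermediateField E A))⟩)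
      Q.ring Q.algebraMap_mem
    have hVA : ∀ y ∈ IntermediateField.adjoin E {u}, y ∈ V := fun y hy => hV1 ⟨y, hy⟩
    have hVn : ∀ y : M, (y : C) ∈ V.nonunits ↔ y ∈ Q.ring.nonunits := by
      intro y
      rw [ValuationSubring.mem_nonunits_iff_or, ValuationSubring.mem_nonunits_iff_or]
      have h1 : ((y : C) = 0) ↔ y = 0 := by
        rw [← ZeroMemClass.coe_zero M, Subtype.ext_iff]
      have h2 : ((y : C)⁻¹ ∈ V) ↔ y⁻¹ ∈ Q.ring := by
        rw [← hV2]
        rfl
      rw [h1, h2]
    have hvc : v - algebraMap E C c ∈ V.nonunits := (hVn (t - algebraMap E M c)).2 hc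
    -- the values
    have hvu' : AlgebraicIndependent E ![v - algebraMap E C c, u] := by
      have h1 := algInd_affine hvu 0 c
      rwa [map_zero, zero_mul, sub_zero] at h1
    have hk0 : k0 E (v - algebraMap E C c) u = k0 E v u := by
      have h1 := k0_affine (F := E) (t := v) (u := u) 0 c
      rwa [map_zero, zero_mul, sub_zero] at h1
    have halg' : Algebra.IsAlgebraic (k0 E (v - algebraMap E C c) u) C := by
      rw [hk0]; exact halg
    have hcl : IsAlgClosure (k0 E (v - algebraMap E C c) u) C := ⟨inferInstance, halg'⟩
    have hk00 : CharZero (k0 E (v - algebraMap E C c) u) :=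
      charZero_of_injective_algebraMap (algebraMap E _).injective
    have hnor : Normal (k0 E (v - algebraMap E C c) u) C := IsAlgClosure.normal _ C
    have hgal : IsGalois (k0 E (v - algebraMap E C c) u) C := ⟨⟩
    have hAt : AtZero E (t0 E (v - algebraMap E C c) u) (u0 E (v - algebraMap E C c) u) V :=
      ⟨fun y hy => hVA _ (coe_mem_adjoin0 (F := E) (t := v - algebraMap E C c) (u := u) (v := u)
        (v' := u0 E (v - algebraMap E C c) u) rfl hy), hvc⟩
    have hval : ∀ y : M, y ≠ 0 → ∃ i : ℤ,
        V.valuation (y : C) = V.valuation (v - algebraMap E C c) ^ i := by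
      intro y hy
      refine vals_of_inert (F := E) (k := k0 E (v - algebraMap E C c) u) (C := C)
        (t0 E (v - algebraMap E C c) u) (u0 E (v - algebraMap E C c) u) (algInd0 hvu')
        (top0 _ _) hAt (fun h0 => hy (Subtype.ext h0)) fun τ hτ => ?_
      have hτk : ∀ r ∈ k0 E (v - algebraMap E C c) u, τ r = r := fun r hr => τ.commutes ⟨r, hr⟩
      have hτe : ∀ e : E, τ (algebraMap E C e) = algebraMap E C e := fun e =>
        hτk _ ((k0 E (v - algebraMap E C c) u).algebraMap_mem e)
      have hτv : τ v = v := by
        apply hτk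
        rw [hk0]
        exact IntermediateField.subset_adjoin _ _ (Or.inl rfl)
      have hτu : τ u = u := hτk _ (IntermediateField.subset_adjoin _ _ (Or.inr rfl))
      have hτz : τ z = z := h V c hVA hvc (τ : C ≃ₐ[_] C).toRingEquiv.toRingHom hτe hτv hτu hτ.2
      have hM' : M.toSubfield ≤
          (τ : C ≃ₐ[_] C).toRingEquiv.toRingHom.eqLocusField (RingHom.id C) := by
        rw [IntermediateField.adjoin_toSubfield, Subfield.closure_le]
        rintro x (⟨e, rfl⟩ | rfl | hx)
        · exact hτe e
        · exact hτv
        · rw [Set.mem_singleton_iff.1 hx]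
          exact hτz
      exact hM' y.2
    obtain ⟨π, hπ0, hπ⟩ := FF.exists_ord_eq hFF Q 1
    obtain ⟨i, hi⟩ := hval π hπ0
    set s : M := t - algebraMap E M c with hs
    have hs0 : s ≠ 0 := by
      intro h0
      apply htr
      rw [sub_eq_zero.1 h0]
      exact isAlgebraic_algebraMap c
    have hsi : s ^ i ≠ 0 := zpow_ne_zero _ hs0
    have hw0 : π / s ^ i ≠ 0 := div_ne_zero hπ0 hsi
    have hVw : V.valuation ((π / s ^ i : M) : C) = 1 := by
      have h1 : ((π / s ^ i : M) : C) = (π : C) / (v - algebraMap E C c) ^ i := by
        push_cast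
        rfl
      rw [h1, map_div₀, map_zpow₀, hi, div_self]
      rw [← map_zpow₀, Ne, map_eq_zero]
      exact fun h0 => hsi (Subtype.ext h0)
    have hord0 : ord Q.ring (π / s ^ i) = 0 := by
      have h1 : 0 ≤ ord Q.ring (π / s ^ i) := by
        rw [ord_nonneg_iff hFF Q hw0, ← hV2]
        exact (V.valuation_le_one_iff _).1 hVw.le
      have h2 : ¬ 0 < ord Q.ring (π / s ^ i) := by
        rw [ord_pos_iff hFF Q hw0, ← hVn, ValuationSubring.mem_nonunits_iff, hVw]
        exact lt_irrefl _
      omega
    have hord : ord Q.ring π = i * ord Q.ring s := by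
      have h1 : π = (π / s ^ i) * s ^ i := (div_mul_cancel₀ _ hsi).symm
      rw [h1, ord_mul hFF Q hw0 hsi, hord0, zero_add, FF.ord_zpow hFF Q hs0]
    have hpos : 0 < ord Q.ring s := (ord_pos_iff hFF Q hs0).2 hc
    rw [hπ] at hord
    exact (Int.eq_one_or_neg_one_of_mul_eq_one' hord.symm).elim (fun h => h.2)
      (fun h => by omega)
  have h1 : z' ∈ IntermediateField.adjoin E {t} := by rw [hmain]; trivial
  have h2 : (IntermediateField.adjoin E {t}).map M.val = IntermediateField.adjoin E {v} := by
    rw [IntermediateField.adjoin_map, Set.image_singleton]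
    rfl
  rw [← h2]
  exact ⟨z', h1, rfl⟩

/-- the values of a polynomial with constant leading coefficient are units at the Gauss extensions -/
theorem ev_unit {F E k C : Type u} [Field F] [Field E] [Field k] [Field C] [Algebra F E]
    [Algebra F k] [Algebra k C] [Algebra E C] [Algebra F C] [IsScalarTower F k C]
    [IsScalarTower F E C] {v u : k} (hu : Transcendental E (algebraMap k C u)) {Δ : F[X][X]}
    (hΔ : ∃ c : F, c ≠ 0 ∧ Δ.leadingCoeff = Polynomial.C c) {W : ValuationSubring C} {c : E}
    (hW : ∀ x ∈ IntermediateField.adjoin E {algebraMap k C u}, x ∈ W)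
    (hc : algebraMap k C v - algebraMap E C c ∈ W.nonunits) :
    algebraMap k C (ev F v u Δ) ∉ W.nonunits := by
  set u' : C := algebraMap k C u with hu'
  set v' : C := algebraMap k C v with hv'
  have hWE : ∀ e : E, algebraMap E C e ∈ W := fun e =>
    hW _ ((IntermediateField.adjoin E {u'}).algebraMap_mem e)
  have huW : u' ∈ W := hW _ (IntermediateField.mem_adjoin_simple_self E u')
  have hvW : v' ∈ W := by
    have h1 : v' = (v' - algebraMap E C c) + algebraMap E C c := by ring
    rw [h1]
    exact W.add_mem _ _ (ValuationSubring.nonunits_subset hc) (hWE c)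
  let ρ : F →+* W := ((algebraMap E C).comp (algebraMap F E)).codRestrict W.toSubring
    (fun a => hWE _)
  let f1 : F[X][X] →+* W := eval₂RingHom (eval₂RingHom ρ ⟨v', hvW⟩) ⟨u', huW⟩
  let f2 : F[X][X] →+* W := eval₂RingHom (eval₂RingHom ρ ⟨algebraMap E C c, hWE c⟩) ⟨u', huW⟩
  have hρ : ∀ a : F, ((ρ a : W) : C) = algebraMap F C a := fun a =>
    (IsScalarTower.algebraMap_apply F E C a).symm
  have h1 : W.subtype.comp f1 = (algebraMap k C).comp (ev F v u) := by
    apply Polynomial.ringHom_ext'
    · apply Polynomial.ringHom_ext
      · intro a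
        simp only [RingHom.comp_apply, f1, coe_eval₂RingHom, eval₂_C, ev]
        change ((ρ a : W) : C) = algebraMap k C (aeval v (Polynomial.C a))
        rw [hρ, aeval_C, IsScalarTower.algebraMap_apply F k C]
      · simp only [RingHom.comp_apply, f1, coe_eval₂RingHom, eval₂_C, eval₂_X, ev]
        change v' = algebraMap k C (aeval v X)
        rw [aeval_X]
    · simp only [RingHom.comp_apply, f1, coe_eval₂RingHom, eval₂_X, ev]
      rfl
  have h2 : ∀ p : F[X][X], ((f2 p : W) : C) =
      aeval u' (p.map (aeval c : F[X] →ₐ[F] E).toRingHom) := by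
    intro p
    have h3 : W.subtype.comp f2 = ((aeval u' : E[X] →ₐ[E] C).toRingHom).comp
        (mapRingHom (aeval c : F[X] →ₐ[F] E).toRingHom) := by
      apply Polynomial.ringHom_ext'
      · apply Polynomial.ringHom_ext
        · intro a
          simp only [RingHom.comp_apply, f2, coe_eval₂RingHom, eval₂_C, coe_mapRingHom, map_C]
          change ((ρ a : W) : C) = aeval u' (Polynomial.C (aeval c (Polynomial.C a)))
          rw [hρ, aeval_C, aeval_C, IsScalarTower.algebraMap_apply F E C]
        · simp only [RingHom.comp_apply, f2, coe_eval₂RingHom, eval₂_C, eval₂_X, coe_mapRingHom,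
            map_C]
          change algebraMap E C c = aeval u' (Polynomial.C (aeval c X))
          rw [aeval_X, aeval_C]
      · simp only [RingHom.comp_apply, f2, coe_eval₂RingHom, eval₂_X, coe_mapRingHom, map_X]
        change u' = aeval u' X
        rw [aeval_X]
    exact congrArg (fun φ : F[X][X] →+* C => φ p) h3
  -- the residues
  let res := IsLocalRing.residue W
  have hres : res.comp f1 = res.comp f2 := by
    apply Polynomial.ringHom_ext'
    · apply Polynomial.ringHom_ext
      · intro a
        simp only [RingHom.comp_apply, f1, f2, coe_eval₂RingHom, eval₂_C]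
      · simp only [RingHom.comp_apply, f1, f2, coe_eval₂RingHom, eval₂_C, eval₂_X]
        rw [← sub_eq_zero, ← map_sub, IsLocalRing.residue_eq_zero_iff,
          IsLocalRing.mem_maximalIdeal, mem_nonunits_iff]
        intro h4
        exact (ValuationSubring.mem_nonunits_iff_exists_mem_maximalIdeal.1 hc).elim fun h5 h6 => by
          rw [IsLocalRing.mem_maximalIdeal, mem_nonunits_iff] at h6
          exact h6 h4
    · simp only [RingHom.comp_apply, f1, f2, coe_eval₂RingHom, eval₂_X]
  -- the value at `c`
  set Q : E[X] := Δ.map (aeval c : F[X] →ₐ[F] E).toRingHom with hQ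
  have hQ0 : Q ≠ 0 := by
    obtain ⟨b, hb0, hb⟩ := hΔ
    intro h0
    have h3 := congrArg (fun p => p.coeff Δ.natDegree) h0
    simp only [hQ, coeff_map, coeff_zero, coeff_natDegree, hb] at h3
    change aeval c (Polynomial.C b) = 0 at h3
    rw [aeval_C, map_eq_zero] at h3
    exact hb0 h3
  have hQu : aeval u' Q ≠ 0 := fun h0 => hQ0 ((transcendental_iff.1 hu) Q h0)
  have hQmem : aeval u' Q ∈ IntermediateField.adjoin E {u'} :=
    IntermediateField.algebra_adjoin_le_adjoin E {u'} (aeval_mem_adjoin_singleton E u')
  have hunit : IsUnit (f2 Δ) := by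
    rw [isUnit_iff_exists_inv]
    refine ⟨⟨(aeval u' Q)⁻¹, hW _ (inv_mem hQmem)⟩, ?_⟩
    apply Subtype.ext
    change ((f2 Δ : W) : C) * (aeval u' Q)⁻¹ = 1
    rw [h2]
    exact mul_inv_cancel₀ hQu
  have hunit1 : IsUnit (f1 Δ) := by
    have h3 : res (f1 Δ) = res (f2 Δ) := congrArg (fun φ : F[X][X] →+* _ => φ Δ) hres
    by_contra h4
    have h5 : f1 Δ ∈ IsLocalRing.maximalIdeal W := h4
    rw [← IsLocalRing.residue_eq_zero_iff] at h5
    have h6 : res (f2 Δ) = 0 := h3.symm.trans h5
    rw [IsLocalRing.residue_eq_zero_iff] at h6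
    exact h6 hunit
  have h3 : ((f1 Δ : W) : C) = algebraMap k C (ev F v u Δ) :=
    congrArg (fun φ : F[X][X] →+* C => φ Δ) h1
  rw [← h3]
  intro h4
  obtain ⟨h5, h6⟩ := ValuationSubring.mem_nonunits_iff_exists_mem_maximalIdeal.1 h4
  exact h6 hunit1

/-- **Block B.** `F(v)` is algebraically closed in `k`. -/
theorem algClosed_of_goodAt {F k : Type u} [Field F] [CharZero F] [Field k] [Algebra F k] {v u : k}
    (hvu : AlgebraicIndependent F ![v, u]) (hfin : FiniteDimensional (k0 F v u) k)
    (hFk : ∀ z : k, IsAlgebraic F z → ∃ c : F, algebraMap F k c = z) {Δ : F[X][X]}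
    (hD : GoodDisc Δ) {E : Finset k} (hE : IntermediateField.adjoin F (E : Set k) = ⊤)
    (h : GoodAt F v u Δ E) (z : k) (hz : IsAlgebraic (IntermediateField.adjoin F {v}) z) :
    z ∈ IntermediateField.adjoin F {v} := by
  classical
  let C := AlgebraicClosure k
  have hk0 : CharZero k := charZero_of_injective_algebraMap (algebraMap F k).injective
  have hC0 : CharZero C := charZero_of_injective_algebraMap (algebraMap k C).injective
  let E' : IntermediateField F C := algebraicClosure F C
  have hE'cl : IsAlgClosed E' := inferInstance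
  have hE'0 : CharZero E' := charZero_of_injective_algebraMap (algebraMap F E').injective
  have hEE : ∀ c : F, algebraMap k C (algebraMap F k c) = algebraMap E' C (algebraMap F E' c) := by
    intro c
    rw [← IsScalarTower.algebraMap_apply F k C, ← IsScalarTower.algebraMap_apply F E' C]
  have hindF : AlgebraicIndependent F ![algebraMap k C v, algebraMap k C u] := by
    have h1 := hvu.map' (f := IsScalarTower.toAlgHom F k C) (algebraMap k C).injective
    have h2 : (IsScalarTower.toAlgHom F k C) ∘ ![v, u] =
        ![algebraMap k C v, algebraMap k C u] := by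
      ext i
      fin_cases i <;> rfl
    rwa [h2] at h1
  have hind : AlgebraicIndependent E' ![algebraMap k C v, algebraMap k C u] :=
    hindF.extendScalars E'
  have hk0F : Algebra.IsAlgebraic (k0 F v u) C := Algebra.IsAlgebraic.trans (k0 F v u) k C
  have hrange : ∀ a : k0 F v u, algebraMap k C a ∈
      k0 E' (algebraMap k C v) (algebraMap k C u) := by
    have h1 : (k0 F v u).toSubfield ≤ (k0 E' (algebraMap k C v) (algebraMap k C u)).toSubfield.comap
        (algebraMap k C) := by
      rw [IntermediateField.adjoin_toSubfield, Subfield.closure_le]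
      rintro x (⟨e, rfl⟩ | rfl | hx)
      · change algebraMap k C (algebraMap F k e) ∈ k0 E' _ _
        rw [hEE]
        exact IntermediateField.algebraMap_mem _ _
      · exact IntermediateField.subset_adjoin _ _ (Or.inl rfl)
      · rw [Set.mem_singleton_iff.1 hx]
        exact IntermediateField.subset_adjoin _ _ (Or.inr rfl)
    exact fun a => h1 a.2
  have halg : Algebra.IsAlgebraic (k0 E' (algebraMap k C v) (algebraMap k C u)) C := by
    refine ⟨fun x => isAlgebraic_of_range_le (A := k0 F v u) (fun a => ?_)
      (Algebra.IsAlgebraic.isAlgebraic x)⟩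
    exact ⟨⟨_, hrange a⟩, rfl⟩
  have hz' : IsAlgebraic (IntermediateField.adjoin E' {algebraMap k C v}) (algebraMap k C z) := by
    refine isAlgebraic_of_range_le (A := IntermediateField.adjoin F {v}) (fun a => ?_)
      (hz.algebraMap (A := C))
    have h1 : (IntermediateField.adjoin F {v}).toSubfield ≤
        (IntermediateField.adjoin E' {algebraMap k C v}).toSubfield.comap (algebraMap k C) := by
      rw [IntermediateField.adjoin_toSubfield, Subfield.closure_le]
      rintro x (⟨e, rfl⟩ | hx)
      · change algebraMap k C (algebraMap F k e) ∈ IntermediateField.adjoin E' _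
        rw [hEE]
        exact IntermediateField.algebraMap_mem _ _
      · rw [Set.mem_singleton_iff.1 hx]
        exact IntermediateField.mem_adjoin_simple_self E' _
    exact ⟨⟨_, h1 a.2⟩, rfl⟩
  -- geometric part
  have hmem := mem_of_unramified hind halg hz' (by
    intro W c hW hc τ hτE hτv hτu hτ
    have hWE : ∀ e : E', algebraMap E' C e ∈ W := fun e =>
      hW _ (IntermediateField.algebraMap_mem _ e)
    have huW : algebraMap k C u ∈ W := hW _ (IntermediateField.mem_adjoin_simple_self E' _)
    have hvW : algebraMap k C v ∈ W := by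
      have h1 : algebraMap k C v = (algebraMap k C v - algebraMap E' C c) + algebraMap E' C c := by
        ring
      rw [h1]
      exact W.add_mem _ _ (ValuationSubring.nonunits_subset hc) (hWE c)
    have huE : Transcendental E' (algebraMap k C u) := transc_F_u hind
    obtain ⟨-, h2⟩ := h C W (fun a => by rw [hEE]; exact hWE _) hvW huW
      (ev_unit huE hD.lead hW hc)
    have h3 := h2 τ (fun a => by rw [hEE]; exact hτE _) hτv hτu hτ
    have h4 : (IntermediateField.adjoin F (E : Set k)).toSubfield ≤
        (τ.comp (algebraMap k C)).eqLocusField (algebraMap k C) := by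
      rw [IntermediateField.adjoin_toSubfield, Subfield.closure_le]
      rintro x (⟨e, rfl⟩ | hx)
      · change τ (algebraMap k C (algebraMap F k e)) = algebraMap k C (algebraMap F k e)
        rw [hEE]
        exact hτE _
      · exact h3 x hx
    rw [hE] at h4
    exact h4 (show z ∈ (⊤ : IntermediateField F k) from trivial))
  -- descent
  have hcl : IsAlgClosure (k0 F v u) C := ⟨inferInstance, hk0F⟩
  have hk00 : CharZero (k0 F v u) := charZero_of_injective_algebraMap (algebraMap F _).injective
  have hnor : Normal (k0 F v u) C := IsAlgClosure.normal _ C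
  have hgal : IsGalois (k0 F v u) C := ⟨⟩
  have hfix : ∀ τ : C ≃ₐ[k0 F v u] C, τ (algebraMap k C z) = algebraMap k C z := by
    intro τ
    obtain ⟨τ', hτ', hagree⟩ := exists_agree (F := F) (k := k0 F v u) (C := C) 0
      (IsScalarTower.toAlgHom (k0 F v u) k C).fieldRange (by
        rintro _ ⟨y, rfl⟩ hy
        have h1 : IsAlgebraic F (algebraMap k C y) := by
          refine isAlgebraic_of_range_le
            (A := IntermediateField.adjoin F {(0 : k0 F v u)}) (fun a => ?_) hy
          have h2 : (a : k0 F v u) ∈ (⊥ : IntermediateField F (k0 F v u)) := by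
            rw [← IntermediateField.adjoin_zero]
            exact a.2
          obtain ⟨b, hb⟩ := IntermediateField.mem_bot.1 h2
          refine ⟨b, ?_⟩
          change _ = algebraMap (k0 F v u) C a
          rw [← hb, ← IsScalarTower.algebraMap_apply F (k0 F v u) C]
        rw [isAlgebraic_algebraMap_iff (algebraMap k C).injective] at h1
        obtain ⟨c, hc⟩ := hFk y h1
        refine ⟨algebraMap F _ c, IntermediateField.algebraMap_mem _ c, ?_⟩
        change algebraMap (k0 F v u) C (algebraMap F (k0 F v u) c) = algebraMap k C y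
        rw [← hc, ← IsScalarTower.algebraMap_apply F (k0 F v u) C,
          ← IsScalarTower.algebraMap_apply F k C]) τ
    have h1 : τ' (algebraMap k C z) = algebraMap k C z := by
      rw [IntermediateField.mem_fixingSubgroup_iff] at hτ'
      exact hτ' _ ⟨z, rfl⟩
    have h2 : (IntermediateField.adjoin E' {algebraMap k C v}).toSubfield ≤
        (τ : C ≃ₐ[_] C).toRingEquiv.toRingHom.eqLocusField τ'.toRingEquiv.toRingHom := by
      rw [IntermediateField.adjoin_toSubfield, Subfield.closure_le]
      rintro x (⟨e, rfl⟩ | hx)
      · change τ (e : C) = τ' (e : C)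
        refine (hagree _ ?_).symm
        rw [mem_algebraicClosure_iff]
        exact (mem_algebraicClosure_iff.1 e.2).tower_top _
      · rw [Set.mem_singleton_iff.1 hx]
        change τ (algebraMap k C v) = τ' (algebraMap k C v)
        have h3 : ∀ σ : C ≃ₐ[k0 F v u] C, σ (algebraMap k C v) = algebraMap k C v := fun σ =>
          σ.commutes (t0 F v u)
        rw [h3, h3]
    have h3 : τ (algebraMap k C z) = τ' (algebraMap k C z) := h2 hmem
    rw [h3, h1]
  have hzk0 : z ∈ k0 F v u := by
    have h1 := (InfiniteGalois.mem_bot_iff_fixed (algebraMap k C z)).2 hfix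
    obtain ⟨b, hb⟩ := IntermediateField.mem_bot.1 h1
    have h2 : (b : k) = z := (algebraMap k C).injective hb
    rw [← h2]
    exact b.2
  have hres : z ∈ (IntermediateField.adjoin F {v}).toSubfield := by
    refine OPN.pure_one (T := u) (transc_t (algInd_symm hvu)) ?_ hz
    have h1 : (k0 F v u).toSubfield ≤ Helper37.UL.gen (IntermediateField.adjoin F {v}).toSubfield ![u] := by
      rw [IntermediateField.adjoin_toSubfield, Subfield.closure_le]
      rintro x (⟨e, rfl⟩ | rfl | hx)
      · exact Subfield.subset_closure (Or.inl ((IntermediateField.adjoin F {v}).algebraMap_mem e))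
      · exact Subfield.subset_closure (Or.inl (IntermediateField.mem_adjoin_simple_self F _))
      · rw [Set.mem_singleton_iff.1 hx]
        exact Subfield.subset_closure (Or.inr ⟨0, rfl⟩)
    exact h1 hzk0
  exact hres

end Pool.Agent.TWH
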